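import Mathlib

/-!
# Tensors from homogeneous quadratic systems

A homogeneous quadratic system `g₁ = ... = g_m = 0` on `ℝⁿ` is turned into a list of symmetric
bilinear forms with
`∑ A_k(x,y)² = C (2|x|²|y|² + 2⟨x,y⟩²) - c ∑ g_i(x,y)²`.
-/

namespace Pool.Agent.H78R3.TSV

open Finset

/-- A term `c * (x_i y_j + x_j y_i)`. -/
abbrev QT := ℤ × ℕ × ℕ

/-- A quadratic constraint: the sum of three terms vanishes. -/
abbrev QC := QT × QT × QT

/-- `x_i y_j + x_j y_i` -/
def bev (x y : ℕ → ℝ) (p : ℕ × ℕ) : ℝ := x p.1 * y p.2 + x p.2 * y p.1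

/-- The value of a term. -/
def tev (x y : ℕ → ℝ) (t : QT) : ℝ := (t.1 : ℝ) * bev x y t.2

/-- The value of a form. -/
def fev (x y : ℕ → ℝ) (f : List QT) : ℝ := (f.map (tev x y)).sum

/-- The value of (the polarization of) a constraint. -/
def gev (x y : ℕ → ℝ) (g : QC) : ℝ := tev x y g.1 + tev x y g.2.1 + tev x y g.2.2

/-- The negative of a term. -/
def tneg (t : QT) : QT := (-t.1, t.2)

theorem tev_tneg (x y : ℕ → ℝ) (t : QT) : tev x y (tneg t) = - tev x y t := by
  simp [tev, tneg]

@[simp] theorem fev_nil (x y : ℕ → ℝ) : fev x y [] = 0 := rfl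

@[simp] theorem fev_cons (x y : ℕ → ℝ) (t : QT) (f : List QT) :
    fev x y (t :: f) = tev x y t + fev x y f := by simp [fev]

/-- All pairs of indices. -/
def pairs (n : ℕ) : List (ℕ × ℕ) :=
  (List.range n).flatMap (fun i => (List.range n).map (fun j => (i, j)))

/-- The weight of a term at a pair of indices. -/
def wt (t : QT) (p : ℕ × ℕ) : ℕ := if p = t.2 then 3 * t.1.natAbs ^ 2 else 0

/-- `192 - wt` copies of the form `x_i y_j + x_j y_i`. -/
def copies (t : QT) (p : ℕ × ℕ) : List (List QT) :=
  ((List.range 192).filter (fun r => decide (wt t p ≤ r))).map (fun _ => [((1 : ℤ), p)])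

/-- The forms of a constraint. -/
def cforms (n : ℕ) (g : QC) : List (List QT) :=
  [[g.1, tneg g.2.1], [g.2.1, tneg g.2.2], [g.1, tneg g.2.2]] ++
  ([g.1, g.2.1, g.2.2].flatMap (fun t => (pairs n).flatMap (fun p => copies t p)))

/-- The forms of a system. -/
def forms (n : ℕ) (G : List QC) : List (List QT) :=
  G.flatMap (fun g => G.flatMap (fun _ => cforms n g))

/-- The sum of the products of the values of the forms. -/
def S (x y x' y' : ℕ → ℝ) (L : List (List QT)) : ℝ :=
  (L.map (fun f => fev x y f * fev x' y' f)).sum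

section

variable (x y x' y' : ℕ → ℝ)

@[simp] theorem S_nil : S x y x' y' [] = 0 := rfl

@[simp] theorem S_cons (f : List QT) (L : List (List QT)) :
    S x y x' y' (f :: L) = fev x y f * fev x' y' f + S x y x' y' L := by simp [S]

@[simp] theorem S_append (L L' : List (List QT)) :
    S x y x' y' (L ++ L') = S x y x' y' L + S x y x' y' L' := by simp [S]

theorem S_flatMap {α : Type} (l : List α) (F : α → List (List QT)) :
    S x y x' y' (l.flatMap F) = (l.map (fun a => S x y x' y' (F a))).sum := by
  induction l with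
  | nil => simp
  | cons a l ih => simp [ih]

theorem sum_pairs (n : ℕ) (φ : ℕ × ℕ → ℝ) :
    ((pairs n).map φ).sum = ∑ i ∈ range n, ∑ j ∈ range n, φ (i, j) := by
  have h : ∀ l : List ℕ, ((l.flatMap (fun i => (List.range n).map (fun j => (i, j)))).map φ).sum =
      (l.map (fun i => ((List.range n).map (fun j => φ (i, j))).sum)).sum := by
    intro l
    induction l with
    | nil => simp
    | cons a l ih => simp [ih, Function.comp_def]
  have h2 : ∀ (m : ℕ) (ψ : ℕ → ℝ), ((List.range m).map ψ).sum = ∑ i ∈ range m, ψ i := by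
    intro m ψ
    induction m with
    | zero => simp
    | succ m ih => simp [List.range_succ, Finset.sum_range_succ, ih]
  rw [pairs, h, h2]
  simp_rw [h2]

theorem S_copies (t : QT) (p : ℕ × ℕ) (ht : t.1.natAbs ≤ 8) :
    S x y x' y' (copies t p) = (192 - (wt t p : ℝ)) * (bev x y p * bev x' y' p) := by
  have h1 : ∀ l : List ℕ, S x y x' y' (l.map (fun _ => [((1 : ℤ), p)])) =
      (l.length : ℝ) * (bev x y p * bev x' y' p) := by
    intro l
    induction l with
    | nil => simp
    | cons a l ih =>
      simp only [List.map_cons, S_cons, ih, fev_cons, fev_nil, add_zero, tev, List.length_cons]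
      push_cast
      ring
  have hw : wt t p ≤ 192 := by
    unfold wt
    split_ifs
    · have : t.1.natAbs ^ 2 ≤ 8 ^ 2 := Nat.pow_le_pow_left ht 2
      omega
    · omega
  have h2 : ((List.range 192).filter (fun r => decide (wt t p ≤ r))).length = 192 - wt t p := by
    have h3 : ∀ m w : ℕ, ((List.range m).filter (fun r => decide (w ≤ r))).length = m - w := by
      intro m w
      induction m with
      | zero => simp
      | succ m ih =>
        rw [List.range_succ, List.filter_append, List.length_append, ih]
        by_cases h : w ≤ m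
        · simp [h]; omega
        · simp [h]; omega
    exact h3 _ _
  rw [copies, h1, h2, Nat.cast_sub hw]
  norm_num

theorem S_slot (n : ℕ) (t : QT) (ht : t.1.natAbs ≤ 8) (h1 : t.2.1 < n) (h2 : t.2.2 < n) :
    S x y x' y' ((pairs n).flatMap (fun p => copies t p)) =
      192 * (∑ i ∈ range n, ∑ j ∈ range n, bev x y (i, j) * bev x' y' (i, j)) -
        3 * (tev x y t * tev x' y' t) := by
  rw [S_flatMap]
  simp_rw [S_copies x y x' y' t _ ht]
  rw [sum_pairs n (fun p => (192 - (wt t p : ℝ)) * (bev x y p * bev x' y' p))]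
  simp_rw [sub_mul, Finset.sum_sub_distrib]
  congr 1
  · simp_rw [Finset.mul_sum]
  · have h3 : ∀ i ∈ range n, ∀ j ∈ range n,
        (wt t (i, j) : ℝ) * (bev x y (i, j) * bev x' y' (i, j)) =
        if i = t.2.1 then (if j = t.2.2 then
          3 * (tev x y t * tev x' y' t) else 0) else 0 := by
      intro i _ j _
      unfold wt
      by_cases hi : i = t.2.1
      · by_cases hj : j = t.2.2
        · have : (i, j) = t.2 := by rw [hi, hj]
          rw [if_pos this, if_pos hi, if_pos hj, this]
          unfold tev
          push_cast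
          rw [Nat.cast_natAbs]
          push_cast
          rw [sq_abs]
          ring
        · have : (i, j) ≠ t.2 := fun h => hj (by rw [← h])
          rw [if_neg this, if_pos hi, if_neg hj]
          simp
      · have : (i, j) ≠ t.2 := fun h => hi (by rw [← h])
        rw [if_neg this, if_neg hi]
        simp
    rw [Finset.sum_congr rfl (fun i hi => Finset.sum_congr rfl (fun j hj => h3 i hi j hj))]
    rw [Finset.sum_eq_single t.2.1]
    · rw [Finset.sum_eq_single t.2.2]
      · simp
      · intro j _ hj
        simp [hj]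
      · intro h
        exact absurd (Finset.mem_range.2 h2) h
    · intro i _ hi
      simp [hi]
    · intro h
      exact absurd (Finset.mem_range.2 h1) h

/-- A term is admissible: its coefficient is at most `8` in absolute value and its indices are
less than `n`. -/
def TOk (n : ℕ) (t : QT) : Prop := t.1.natAbs ≤ 8 ∧ t.2.1 < n ∧ t.2.2 < n

/-- A constraint is admissible. -/
def GOk (n : ℕ) (g : QC) : Prop := TOk n g.1 ∧ TOk n g.2.1 ∧ TOk n g.2.2

theorem S_cforms (n : ℕ) (g : QC) (hg : GOk n g) : S x y x' y' (cforms n g) =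
      576 * (∑ i ∈ range n, ∑ j ∈ range n, bev x y (i, j) * bev x' y' (i, j)) -
        gev x y g * gev x' y' g := by
  obtain ⟨⟨a1, a2, a3⟩, ⟨b1, b2, b3⟩, ⟨c1, c2, c3⟩⟩ := hg
  unfold cforms
  rw [S_append]
  simp only [S_cons, S_nil, fev_cons, fev_nil, tev_tneg, add_zero, List.flatMap_cons,
    List.flatMap_nil, List.append_nil, S_append]
  rw [S_slot x y x' y' n _ a1 a2 a3, S_slot x y x' y' n _ b1 b2 b3,
    S_slot x y x' y' n _ c1 c2 c3]
  unfold gev
  ring

theorem S_forms (n : ℕ) (G : List QC) (hG : ∀ g ∈ G, GOk n g) : S x y x' y' (forms n G) =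
      576 * (G.length : ℝ) ^ 2 *
        (∑ i ∈ range n, ∑ j ∈ range n, bev x y (i, j) * bev x' y' (i, j)) -
        (G.length : ℝ) * (G.map (fun g => gev x y g * gev x' y' g)).sum := by
  set B := ∑ i ∈ range n, ∑ j ∈ range n, bev x y (i, j) * bev x' y' (i, j) with hB
  have h1 : ∀ (G' : List QC), ∀ g, GOk n g → S x y x' y' (G'.flatMap (fun _ => cforms n g)) =
      (G'.length : ℝ) * (576 * B - gev x y g * gev x' y' g) := by
    intro G' g hg
    induction G' with
    | nil => simp
    | cons a l ih =>
      rw [List.flatMap_cons, S_append, ih, S_cforms x y x' y' n g hg, List.length_cons]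
      push_cast
      ring
  have h2 : ∀ G' : List QC, (∀ g ∈ G', GOk n g) →
      S x y x' y' (G'.flatMap (fun g => G.flatMap (fun _ => cforms n g))) =
      (G.length : ℝ) * ((G'.length : ℝ) * (576 * B) -
        (G'.map (fun g => gev x y g * gev x' y' g)).sum) := by
    intro G' hG'
    induction G' with
    | nil => simp
    | cons a l ih =>
      rw [List.flatMap_cons, S_append, ih (fun g hg => hG' g (List.mem_cons_of_mem _ hg)),
        h1 G a (hG' a List.mem_cons_self), List.length_cons, List.map_cons, List.sum_cons]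
      push_cast
      ring
  rw [forms, h2 G hG]
  ring

/-- The sum of the products over all pairs. -/
theorem sum_bev (n : ℕ) : ∑ i ∈ range n, ∑ j ∈ range n, bev x y (i, j) * bev x' y' (i, j) =
    2 * ((∑ i ∈ range n, x i * x' i) * (∑ i ∈ range n, y i * y' i)) +
    2 * ((∑ i ∈ range n, x i * y' i) * (∑ i ∈ range n, y i * x' i)) := by
  simp only [bev]
  have e : ∀ i j : ℕ, (x i * y j + x j * y i) * (x' i * y' j + x' j * y' i) =
      (x i * x' i) * (y j * y' j) + (y i * y' i) * (x j * x' j) +
      (x i * y' i) * (y j * x' j) + (y i * x' i) * (x j * y' j) := by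
    intro i j
    ring
  simp_rw [e, Finset.sum_add_distrib, ← Finset.mul_sum, ← Finset.sum_mul]
  ring

end

end Pool.Agent.H78R3.TSV
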