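import Pool.Agent.ER.Defs

/-!
# Tensor singular values: the decision problem
-/

namespace Pool.Agent.H78R3.TSV

/-- The real number `σ` is a singular value of the tensor `t` of dimension `d × d × d`: there are
unit vectors `x`, `y`, `z` with `∑_{j,k} t_{ijk} y_j z_k = σ x_i`, `∑_{i,k} t_{ijk} x_i z_k = σ y_j`
and `∑_{i,j} t_{ijk} x_i y_j = σ z_k`. -/
def IsSingularValue {d : ℕ} (t : Fin d → Fin d → Fin d → ℝ) (σ : ℝ) : Prop :=
  ∃ x y z : EuclideanSpace ℝ (Fin d), ‖x‖ = 1 ∧ ‖y‖ = 1 ∧ ‖z‖ = 1 ∧
    (∀ i, ∑ j, ∑ k, t i j k * y j * z k = σ * x i) ∧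
    (∀ j, ∑ i, ∑ k, t i j k * x i * z k = σ * y j) ∧
    (∀ k, ∑ i, ∑ j, t i j k * x i * y j = σ * z k)

/-- The nested list `t` of rational numbers is the list of the entries of a `d × d × d` array,
`d` being the length of `t`. -/
def IsCube (t : List (List (List ℚ))) : Prop :=
  ∀ a ∈ t, a.length = t.length ∧ ∀ b ∈ a, b.length = t.length

/-- The entries of a nested list. -/
def entry (t : List (List (List ℚ))) (i j k : ℕ) : ℚ := ((t.getD i []).getD j []).getD k 0

/-- The decision problem **Tensor Singular Value**: the input is a `d × d × d` tensor with rational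
entries (a nested list; `d` is its length) and a positive rational number `σ`; the question is
whether `σ` is a singular value of the tensor. -/
def TensorSingularValue (q : List (List (List ℚ)) × ℚ) : Prop :=
  IsCube q.1 ∧ 0 < q.2 ∧ IsSingularValue
    (fun i j k : Fin q.1.length => ((entry q.1 i j k : ℚ) : ℝ)) (q.2 : ℝ)

end Pool.Agent.H78R3.TSV
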