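import Pool.Agent.H78R3.TSV.Time
import Pool.Agent.ER.Dec
import Pool.Agent.ER.Rat

/-!
# Membership of Tensor Singular Value in `∃ℝ`
-/

namespace Pool.Agent.NPC.H78TSV

open Pool.Agent.NPC Pool.Agent.NPC.ER Pool.Agent.H78R3.TSV Pool.Agent.NPC.H670R2
open Finset

/-- The variable of an entry. -/
def vw (d i j k : ℕ) : ℕ := 4 * ((i * d + j) * d + k) + 3

/-- The variable of `σ`. -/
def vs (d : ℕ) : ℕ := 4 * (d * d * d) + 3

/-- The formulas for the entries. -/
def fEnt (t : List (List (List ℚ))) : List Fm :=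
  (List.range t.length).flatMap fun i => (List.range t.length).flatMap fun j =>
    (List.range t.length).map fun k => eqRat (Tm.var (vw t.length i j k)) (entry t i j k)

/-- The formulas for the singular value equations. -/
def fX (d : ℕ) : List Fm :=
  (List.range d).map fun i => Fm.eq
    (sumTm ((List.range d).flatMap fun j => (List.range d).map fun k =>
      Tm.mul (Tm.mul (Tm.var (vw d i j k)) (Tm.var (4 * j + 1))) (Tm.var (4 * k + 2))))
    (Tm.mul (Tm.var (vs d)) (Tm.var (4 * i)))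

/-- The formulas for the singular value equations. -/
def fY (d : ℕ) : List Fm :=
  (List.range d).map fun j => Fm.eq
    (sumTm ((List.range d).flatMap fun i => (List.range d).map fun k =>
      Tm.mul (Tm.mul (Tm.var (vw d i j k)) (Tm.var (4 * i))) (Tm.var (4 * k + 2))))
    (Tm.mul (Tm.var (vs d)) (Tm.var (4 * j + 1)))

/-- The formulas for the singular value equations. -/
def fZ (d : ℕ) : List Fm :=
  (List.range d).map fun k => Fm.eq
    (sumTm ((List.range d).flatMap fun i => (List.range d).map fun j =>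
      Tm.mul (Tm.mul (Tm.var (vw d i j k)) (Tm.var (4 * i))) (Tm.var (4 * j + 1))))
    (Tm.mul (Tm.var (vs d)) (Tm.var (4 * k + 2)))

/-- The formula for a unit vector. -/
def fU (d r : ℕ) : Fm :=
  Fm.eq (sumTm ((List.range d).map fun i => Tm.mul (Tm.var (4 * i + r)) (Tm.var (4 * i + r))))
    Tm.one

/-- The list of the formulas. -/
def fAll (q : List (List (List ℚ)) × ℚ) : List Fm :=
  fU q.1.length 0 :: fU q.1.length 1 :: fU q.1.length 2 ::
    eqRat (Tm.var (vs q.1.length)) q.2 ::
    (fEnt q.1 ++ (fX q.1.length ++ (fY q.1.length ++ fZ q.1.length)))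

/-- Test for nested lists. -/
def isCubeB (t : List (List (List ℚ))) : Bool :=
  t.all fun a => decide (a.length = t.length) && a.all fun b => decide (b.length = t.length)

theorem isCubeB_iff (t : List (List (List ℚ))) : isCubeB t = true ↔ IsCube t := by
  unfold isCubeB IsCube
  simp only [List.all_eq_true, Bool.and_eq_true, decide_eq_true_eq]

/-- Positivity test. -/
def isPosB (q : ℚ) : Bool := !(decide (q.num < 0)) && !(decide (q.num.natAbs = 0))

theorem isPosB_iff (q : ℚ) : isPosB q = true ↔ 0 < q := by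
  unfold isPosB
  rw [← Rat.num_pos]
  simp only [Bool.and_eq_true, Bool.not_eq_true', decide_eq_false_iff_not]
  omega

/-- The formula. -/
def fTSV (q : List (List (List ℚ)) × ℚ) : Fm :=
  bif isCubeB q.1 && isPosB q.2 then conj (fAll q) else H670R2.ff

theorem sum_list_range (n : ℕ) (f : ℕ → ℝ) :
    ((List.range n).map f).sum = ∑ i ∈ range n, f i := by
  induction n with
  | zero => simp
  | succ n ih => simp [List.range_succ, Finset.sum_range_succ, ih]

theorem sum_flatMap_range (n : ℕ) (l : List ℕ) (F : ℕ → ℕ → Tm) (v : ℕ → ℝ) :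
    ((l.flatMap fun i => (List.range n).map fun j => F i j).map (Tm.eval v)).sum =
      (l.map fun i => ∑ j ∈ range n, (F i j).eval v).sum := by
  induction l with
  | nil => simp
  | cons a l ih =>
    simp only [List.flatMap_cons, List.map_append, List.sum_append, ih, List.map_map,
      List.map_cons, List.sum_cons]
    rw [← sum_list_range]
    rfl

theorem holds_fU (d r : ℕ) (v : ℕ → ℝ) :
    (fU d r).Holds v ↔ ∑ i ∈ range d, v (4 * i + r) ^ 2 = 1 := by
  unfold fU
  simp only [Fm.Holds, eval_sumTm, List.map_map, Tm.eval]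
  rw [show (Tm.eval v ∘ fun i => Tm.mul (Tm.var (4 * i + r)) (Tm.var (4 * i + r))) =
    fun i => v (4 * i + r) ^ 2 from funext fun i => by simp [Tm.eval, sq], sum_list_range]

theorem holds_fX (d : ℕ) (v : ℕ → ℝ) : (∀ φ ∈ fX d, φ.Holds v) ↔ ∀ i < d,
    ∑ j ∈ range d, ∑ k ∈ range d, v (vw d i j k) * v (4 * j + 1) * v (4 * k + 2) =
      v (vs d) * v (4 * i) := by
  unfold fX
  rw [List.forall_mem_map]
  simp only [List.mem_range, Fm.Holds, eval_sumTm, sum_flatMap_range, sum_list_range, Tm.eval]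

theorem holds_fY (d : ℕ) (v : ℕ → ℝ) : (∀ φ ∈ fY d, φ.Holds v) ↔ ∀ j < d,
    ∑ i ∈ range d, ∑ k ∈ range d, v (vw d i j k) * v (4 * i) * v (4 * k + 2) =
      v (vs d) * v (4 * j + 1) := by
  unfold fY
  rw [List.forall_mem_map]
  simp only [List.mem_range, Fm.Holds, eval_sumTm, sum_flatMap_range, sum_list_range, Tm.eval]

theorem holds_fZ (d : ℕ) (v : ℕ → ℝ) : (∀ φ ∈ fZ d, φ.Holds v) ↔ ∀ k < d,
    ∑ i ∈ range d, ∑ j ∈ range d, v (vw d i j k) * v (4 * i) * v (4 * j + 1) =
      v (vs d) * v (4 * k + 2) := by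
  unfold fZ
  rw [List.forall_mem_map]
  simp only [List.mem_range, Fm.Holds, eval_sumTm, sum_flatMap_range, sum_list_range, Tm.eval]

theorem holds_fEnt (t : List (List (List ℚ))) (v : ℕ → ℝ) : (∀ φ ∈ fEnt t, φ.Holds v) ↔
    ∀ i < t.length, ∀ j < t.length, ∀ k < t.length,
      v (vw t.length i j k) = ((entry t i j k : ℚ) : ℝ) := by
  unfold fEnt
  simp only [List.forall_mem_flatMap, List.forall_mem_map, List.mem_range, holds_eqRat, Tm.eval]

theorem holds_fAll (q : List (List (List ℚ)) × ℚ) (v : ℕ → ℝ) :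
    (∀ φ ∈ fAll q, φ.Holds v) ↔ (fU q.1.length 0).Holds v ∧ (fU q.1.length 1).Holds v ∧
      (fU q.1.length 2).Holds v ∧ (eqRat (Tm.var (vs q.1.length)) q.2).Holds v ∧
      (∀ φ ∈ fEnt q.1, φ.Holds v) ∧ (∀ φ ∈ fX q.1.length, φ.Holds v) ∧
      (∀ φ ∈ fY q.1.length, φ.Holds v) ∧ (∀ φ ∈ fZ q.1.length, φ.Holds v) := by
  unfold fAll
  simp only [List.forall_mem_cons, List.forall_mem_append]

/-- **Correctness of the formula.** -/
theorem tsv_iff_etr (q : List (List (List ℚ)) × ℚ) : TensorSingularValue q ↔ ETR (fTSV q) := by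
  rw [tsv_iff]
  unfold fTSV
  by_cases hq : isCubeB q.1 = true ∧ isPosB q.2 = true
  · have hb : (isCubeB q.1 && isPosB q.2) = true := by rw [hq.1, hq.2]; rfl
    rw [hb, cond_true]
    have h1 := (isCubeB_iff _).1 hq.1
    have h2 := (isPosB_iff _).1 hq.2
    have h3 : (IsCube q.1 ∧ 0 < q.2 ∧ IsSV q.1.length
        (fun i j k => ((entry q.1 i j k : ℚ) : ℝ)) (q.2 : ℝ)) ↔
        IsSV q.1.length (fun i j k => ((entry q.1 i j k : ℚ) : ℝ)) (q.2 : ℝ) :=
      ⟨fun h => h.2.2, fun h => ⟨h1, h2, h⟩⟩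
    rw [h3]
    unfold ETR
    simp_rw [holds_conj, holds_fAll, holds_fU, holds_fEnt, holds_fX, holds_fY, holds_fZ,
      holds_eqRat]
    set d := q.1.length with hd
    constructor
    · rintro ⟨x, y, z, hx, hy, hz, g1, g2, g3⟩
      let v : ℕ → ℝ := fun n => if n % 4 = 0 then x (n / 4) else if n % 4 = 1 then y (n / 4) else
        if n % 4 = 2 then z (n / 4) else
        if n / 4 = d * d * d then (q.2 : ℝ) else
          ((entry q.1 (n / 4 / d / d) (n / 4 / d % d) (n / 4 % d) : ℚ) : ℝ)
      have v0 : ∀ i, v (4 * i) = x i := by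
        intro i
        simp only [v]
        rw [if_pos (by omega)]
        congr 1; omega
      have v0' : ∀ i, v (4 * i + 0) = x i := v0
      have v1 : ∀ i, v (4 * i + 1) = y i := by
        intro i
        simp only [v]
        rw [if_neg (by omega), if_pos (by omega)]
        congr 1; omega
      have v2 : ∀ i, v (4 * i + 2) = z i := by
        intro i
        simp only [v]
        rw [if_neg (by omega), if_neg (by omega), if_pos (by omega)]
        congr 1; omega
      have v3 : v (vs d) = (q.2 : ℝ) := by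
        simp only [v, vs]
        rw [if_neg (by omega), if_neg (by omega), if_neg (by omega), if_pos (by omega)]
      have v4 : ∀ i < d, ∀ j < d, ∀ k < d, v (vw d i j k) = ((entry q.1 i j k : ℚ) : ℝ) := by
        intro i hi j hj k hk
        have e0 : (4 * ((i * d + j) * d + k) + 3) / 4 = (i * d + j) * d + k := by omega
        have hd0 : 0 < d := by omega
        have e1 : ((i * d + j) * d + k) % d = k := by
          rw [Nat.mul_comm, Nat.mul_add_mod, Nat.mod_eq_of_lt hk]
        have e2 : ((i * d + j) * d + k) / d = i * d + j := by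
          rw [Nat.mul_comm, Nat.mul_add_div hd0, Nat.div_eq_of_lt hk, Nat.add_zero]
        have e3 : (i * d + j) % d = j := by
          rw [Nat.mul_comm, Nat.mul_add_mod, Nat.mod_eq_of_lt hj]
        have e4 : (i * d + j) / d = i := by
          rw [Nat.mul_comm, Nat.mul_add_div hd0, Nat.div_eq_of_lt hj, Nat.add_zero]
        have e5 : (i * d + j) * d + k ≠ d * d * d := by
          have h5 : i * d + j < d * d := by
            calc i * d + j < i * d + d := by omega
              _ = (i + 1) * d := by ring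
              _ ≤ d * d := Nat.mul_le_mul_right _ hi
          have h6 : (i * d + j) * d + k < d * d * d := by
            calc (i * d + j) * d + k < (i * d + j) * d + d := by omega
              _ = (i * d + j + 1) * d := by ring
              _ ≤ d * d * d := Nat.mul_le_mul_right _ h5
          omega
        simp only [v, vw]
        rw [if_neg (by omega), if_neg (by omega), if_neg (by omega), e0, if_neg e5, e2, e4, e1, e3]
      refine ⟨v, ?_, ?_, ?_, v3, v4, ?_, ?_, ?_⟩
      · simp_rw [v0']; exact hx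
      · simp_rw [v1]; exact hy
      · simp_rw [v2]; exact hz
      · intro i hi
        rw [v3, v0, ← g1 i hi]
        exact Finset.sum_congr rfl fun j hj => Finset.sum_congr rfl fun k hk => by
          rw [v4 i hi j (Finset.mem_range.1 hj) k (Finset.mem_range.1 hk), v1, v2]
      · intro j hj
        rw [v3, v1, ← g2 j hj]
        exact Finset.sum_congr rfl fun i hi => Finset.sum_congr rfl fun k hk => by
          rw [v4 i (Finset.mem_range.1 hi) j hj k (Finset.mem_range.1 hk), v0, v2]
      · intro k hk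
        rw [v3, v2, ← g3 k hk]
        exact Finset.sum_congr rfl fun i hi => Finset.sum_congr rfl fun j hj => by
          rw [v4 i (Finset.mem_range.1 hi) j (Finset.mem_range.1 hj) k hk, v0, v1]
    · rintro ⟨v, hx, hy, hz, v3, v4, g1, g2, g3⟩
      simp only [Tm.eval] at v3
      refine ⟨fun i => v (4 * i), fun i => v (4 * i + 1), fun i => v (4 * i + 2), hx, hy, hz,
        ?_, ?_, ?_⟩
      · intro i hi
        rw [← v3, ← g1 i hi]
        exact Finset.sum_congr rfl fun j hj => Finset.sum_congr rfl fun k hk => by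
          rw [v4 i hi j (Finset.mem_range.1 hj) k (Finset.mem_range.1 hk)]
      · intro j hj
        rw [← v3, ← g2 j hj]
        exact Finset.sum_congr rfl fun i hi => Finset.sum_congr rfl fun k hk => by
          rw [v4 i (Finset.mem_range.1 hi) j hj k (Finset.mem_range.1 hk)]
      · intro k hk
        rw [← v3, ← g3 k hk]
        exact Finset.sum_congr rfl fun i hi => Finset.sum_congr rfl fun j hj => by
          rw [v4 i (Finset.mem_range.1 hi) j (Finset.mem_range.1 hj) k hk]
  · have hb : (isCubeB q.1 && isPosB q.2) = false := by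
      rw [Bool.eq_false_iff]
      intro h
      exact hq (Bool.and_eq_true_iff.1 h)
    rw [hb, cond_false]
    constructor
    · rintro ⟨h1, h2, -⟩
      exact absurd ⟨(isCubeB_iff _).2 h1, (isPosB_iff _).2 h2⟩ hq
    · intro h
      exact absurd h H670R2.not_etr_ff

section

variable {α : Type} [TEnc α]

theorem poly_vw {d i j k : α → ℕ} (hd : Poly d) (hi : Poly i) (hj : Poly j) (hk : Poly k) :
    Poly (fun a => vw (d a) (i a) (j a) (k a)) :=
  Poly.add (Poly.mul (Poly.const 4) (Poly.add (Poly.mul (Poly.add (Poly.mul hi hd) hj) hd) hk))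
    (Poly.const 3)

theorem poly_vs {d : α → ℕ} (hd : Poly d) : Poly (fun a => vs (d a)) :=
  Poly.add (Poly.mul (Poly.const 4) (Poly.mul (Poly.mul hd hd) hd)) (Poly.const 3)

theorem poly_entry {t : α → List (List (List ℚ))} {i j k : α → ℕ} (ht : Poly t) (hi : Poly i)
    (hj : Poly j) (hk : Poly k) : Poly (fun a => entry (t a) (i a) (j a) (k a)) :=
  Poly.getD (Poly.getD (Poly.getD ht hi (Poly.const [])) hj (Poly.const [])) hk (Poly.const 0)

theorem poly_lin {i : α → ℕ} (hi : Poly i) (r : ℕ) : Poly (fun a => Tm.var (4 * i a + r)) :=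
  poly_tvar (Poly.add (Poly.mul (Poly.const 4) hi) (Poly.const r))

theorem poly_lin0 {i : α → ℕ} (hi : Poly i) : Poly (fun a => Tm.var (4 * i a)) :=
  poly_tvar (Poly.mul (Poly.const 4) hi)

theorem poly_fEnt {t : α → List (List (List ℚ))} (ht : Poly t) : Poly (fun a => fEnt (t a)) := by
  have hd : UPoly (fun a => (t a).length) := UPoly.length ht
  refine Poly.flatMap (F := fun a i => (List.range (t a).length).flatMap fun j =>
    (List.range (t a).length).map fun k =>
      eqRat (Tm.var (vw (t a).length i j k)) (entry (t a) i j k)) hd.range ?_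
  refine Poly.flatMap (F := fun (p : α × ℕ) j => (List.range (t p.1).length).map fun k =>
      eqRat (Tm.var (vw (t p.1).length p.2 j k)) (entry (t p.1) p.2 j k))
    (hd.range.comp (Poly.fst Poly.id)) ?_
  refine Poly.map (F := fun (p : (α × ℕ) × ℕ) k =>
      eqRat (Tm.var (vw (t p.1.1).length p.1.2 p.2 k)) (entry (t p.1.1) p.1.2 p.2 k))
    (hd.range.comp (Poly.fst (Poly.fst Poly.id))) ?_
  have e1 : Poly (fun p : ((α × ℕ) × ℕ) × ℕ => p.1.1.1) :=
    Poly.fst (Poly.fst (Poly.fst Poly.id))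
  have e2 : Poly (fun p : ((α × ℕ) × ℕ) × ℕ => p.1.1.2) :=
    Poly.snd (Poly.fst (Poly.fst Poly.id))
  have e3 : Poly (fun p : ((α × ℕ) × ℕ) × ℕ => p.1.2) := Poly.snd (Poly.fst Poly.id)
  have e4 : Poly (fun p : ((α × ℕ) × ℕ) × ℕ => p.2) := Poly.snd Poly.id
  exact poly_eqRat (poly_tvar (poly_vw (hd.toPoly.comp e1) e2 e3 e4))
    (poly_entry (ht.comp e1) e2 e3 e4)

theorem poly_sum2 {d : α → ℕ} (hd : UPoly d) {F : α → ℕ → ℕ → Tm}
    (hF : Poly (fun p : (α × ℕ) × ℕ => F p.1.1 p.1.2 p.2)) :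
    Poly (fun a => sumTm ((List.range (d a)).flatMap fun j => (List.range (d a)).map fun k =>
      F a j k)) := by
  refine poly_sumTm (Poly.flatMap (F := fun a j => (List.range (d a)).map fun k => F a j k)
    hd.range ?_)
  exact Poly.map (F := fun (p : α × ℕ) k => F p.1 p.2 k) (hd.range.comp (Poly.fst Poly.id)) hF

theorem poly_fX {d : α → ℕ} (hd : UPoly d) : Poly (fun a => fX (d a)) := by
  refine Poly.map (F := fun a i => Fm.eq
    (sumTm ((List.range (d a)).flatMap fun j => (List.range (d a)).map fun k =>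
      Tm.mul (Tm.mul (Tm.var (vw (d a) i j k)) (Tm.var (4 * j + 1))) (Tm.var (4 * k + 2))))
    (Tm.mul (Tm.var (vs (d a))) (Tm.var (4 * i)))) hd.range ?_
  have a1 : Poly (fun p : α × ℕ => p.1) := Poly.fst Poly.id
  have a2 : Poly (fun p : α × ℕ => p.2) := Poly.snd Poly.id
  have e1 : Poly (fun p : ((α × ℕ) × ℕ) × ℕ => p.1.1.1) :=
    Poly.fst (Poly.fst (Poly.fst Poly.id))
  have e2 : Poly (fun p : ((α × ℕ) × ℕ) × ℕ => p.1.1.2) :=
    Poly.snd (Poly.fst (Poly.fst Poly.id))
  have e3 : Poly (fun p : ((α × ℕ) × ℕ) × ℕ => p.1.2) := Poly.snd (Poly.fst Poly.id)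
  have e4 : Poly (fun p : ((α × ℕ) × ℕ) × ℕ => p.2) := Poly.snd Poly.id
  refine poly_eq ?_ (poly_tmul (poly_tvar (poly_vs (hd.toPoly.comp a1))) (poly_lin0 a2))
  refine poly_sum2 (F := fun (p : α × ℕ) j k => Tm.mul (Tm.mul (Tm.var (vw (d p.1) p.2 j k))
    (Tm.var (4 * j + 1))) (Tm.var (4 * k + 2))) (hd.comp a1) ?_
  exact poly_tmul (poly_tmul (poly_tvar (poly_vw (hd.toPoly.comp e1) e2 e3 e4)) (poly_lin e3 1))
    (poly_lin e4 2)

theorem poly_fY {d : α → ℕ} (hd : UPoly d) : Poly (fun a => fY (d a)) := by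
  refine Poly.map (F := fun a j => Fm.eq
    (sumTm ((List.range (d a)).flatMap fun i => (List.range (d a)).map fun k =>
      Tm.mul (Tm.mul (Tm.var (vw (d a) i j k)) (Tm.var (4 * i))) (Tm.var (4 * k + 2))))
    (Tm.mul (Tm.var (vs (d a))) (Tm.var (4 * j + 1)))) hd.range ?_
  have a1 : Poly (fun p : α × ℕ => p.1) := Poly.fst Poly.id
  have a2 : Poly (fun p : α × ℕ => p.2) := Poly.snd Poly.id
  have e1 : Poly (fun p : ((α × ℕ) × ℕ) × ℕ => p.1.1.1) :=
    Poly.fst (Poly.fst (Poly.fst Poly.id))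
  have e2 : Poly (fun p : ((α × ℕ) × ℕ) × ℕ => p.1.1.2) :=
    Poly.snd (Poly.fst (Poly.fst Poly.id))
  have e3 : Poly (fun p : ((α × ℕ) × ℕ) × ℕ => p.1.2) := Poly.snd (Poly.fst Poly.id)
  have e4 : Poly (fun p : ((α × ℕ) × ℕ) × ℕ => p.2) := Poly.snd Poly.id
  refine poly_eq ?_ (poly_tmul (poly_tvar (poly_vs (hd.toPoly.comp a1))) (poly_lin a2 1))
  refine poly_sum2 (F := fun (p : α × ℕ) i k => Tm.mul (Tm.mul (Tm.var (vw (d p.1) i p.2 k))
    (Tm.var (4 * i))) (Tm.var (4 * k + 2))) (hd.comp a1) ?_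
  exact poly_tmul (poly_tmul (poly_tvar (poly_vw (hd.toPoly.comp e1) e3 e2 e4)) (poly_lin0 e3))
    (poly_lin e4 2)

theorem poly_fZ {d : α → ℕ} (hd : UPoly d) : Poly (fun a => fZ (d a)) := by
  refine Poly.map (F := fun a k => Fm.eq
    (sumTm ((List.range (d a)).flatMap fun i => (List.range (d a)).map fun j =>
      Tm.mul (Tm.mul (Tm.var (vw (d a) i j k)) (Tm.var (4 * i))) (Tm.var (4 * j + 1))))
    (Tm.mul (Tm.var (vs (d a))) (Tm.var (4 * k + 2)))) hd.range ?_
  have a1 : Poly (fun p : α × ℕ => p.1) := Poly.fst Poly.id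
  have a2 : Poly (fun p : α × ℕ => p.2) := Poly.snd Poly.id
  have e1 : Poly (fun p : ((α × ℕ) × ℕ) × ℕ => p.1.1.1) :=
    Poly.fst (Poly.fst (Poly.fst Poly.id))
  have e2 : Poly (fun p : ((α × ℕ) × ℕ) × ℕ => p.1.1.2) :=
    Poly.snd (Poly.fst (Poly.fst Poly.id))
  have e3 : Poly (fun p : ((α × ℕ) × ℕ) × ℕ => p.1.2) := Poly.snd (Poly.fst Poly.id)
  have e4 : Poly (fun p : ((α × ℕ) × ℕ) × ℕ => p.2) := Poly.snd Poly.id
  refine poly_eq ?_ (poly_tmul (poly_tvar (poly_vs (hd.toPoly.comp a1))) (poly_lin a2 2))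
  refine poly_sum2 (F := fun (p : α × ℕ) i j => Tm.mul (Tm.mul (Tm.var (vw (d p.1) i j p.2))
    (Tm.var (4 * i))) (Tm.var (4 * j + 1))) (hd.comp a1) ?_
  exact poly_tmul (poly_tmul (poly_tvar (poly_vw (hd.toPoly.comp e1) e3 e4 e2)) (poly_lin0 e3))
    (poly_lin e4 1)

theorem poly_fU {d : α → ℕ} (hd : UPoly d) (r : ℕ) : Poly (fun a => fU (d a) r) := by
  refine poly_eq (poly_sumTm (Poly.map (F := fun _ i => Tm.mul (Tm.var (4 * i + r))
    (Tm.var (4 * i + r))) hd.range ?_)) (Poly.const Tm.one)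
  exact poly_tmul (poly_lin (Poly.snd Poly.id) r) (poly_lin (Poly.snd Poly.id) r)

theorem poly_fTSV : Poly fTSV := by
  have h1 : Poly (fun q : List (List (List ℚ)) × ℚ => q.1) := Poly.fst Poly.id
  have h2 : Poly (fun q : List (List (List ℚ)) × ℚ => q.2) := Poly.snd Poly.id
  have hd : UPoly (fun q : List (List (List ℚ)) × ℚ => q.1.length) := UPoly.length h1
  refine Poly.cond (Poly.and ?_ ?_) (poly_conj ?_) (Poly.const _)
  · refine Poly.all (p := fun (q : List (List (List ℚ)) × ℚ) a =>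
      decide (a.length = q.1.length) && a.all fun b => decide (b.length = q.1.length)) h1 ?_
    refine Poly.and (Poly.decide_eq (Poly.length (Poly.snd Poly.id))
      (hd.toPoly.comp (Poly.fst Poly.id))) ?_
    refine Poly.all (p := fun (r : (List (List (List ℚ)) × ℚ) × List (List ℚ)) b =>
      decide (b.length = r.1.1.length)) (Poly.snd Poly.id) ?_
    exact Poly.decide_eq (Poly.length (Poly.snd Poly.id))
      (hd.toPoly.comp (Poly.fst (Poly.fst Poly.id)))
  · exact Poly.and (Poly.not (poly_isNeg (poly_ratNum h2)))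
      (Poly.not (Poly.decide_eq (poly_natAbs (poly_ratNum h2)) (Poly.const 0)))
  · exact Poly.cons (poly_fU hd 0) (Poly.cons (poly_fU hd 1) (Poly.cons (poly_fU hd 2)
      (Poly.cons (poly_eqRat (poly_tvar (poly_vs hd.toPoly)) h2)
        (Poly.append (poly_fEnt h1) (Poly.append (poly_fX hd)
          (Poly.append (poly_fY hd) (poly_fZ hd)))))))

end

/-- Tensor Singular Value belongs to `∃ℝ`. -/
theorem tsv_mem : InER (lang TensorSingularValue) :=
  ER.InER.of_poly poly_fTSV tsv_iff_etr

end Pool.Agent.NPC.H78TSV
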