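import Pool.Agent.H78R3.TSV.Sing
import Pool.Agent.ER.Bounded

/-!
# From systems of constraints to homogeneous quadratic systems
-/

namespace Pool.Agent.H78R3.TSV

open Finset Pool.Agent.NPC Pool.Agent.NPC.ER

/-- The index of a variable. -/
def ix (V : List ℕ) (i : ℕ) : ℕ := V.idxOf i + 1

/-- The homogeneous quadratic constraint of a constraint (the constant is `1/8`). -/
def hcon (V : List ℕ) : ER.Con → QC
  | ER.Con.one i => ((8, ix V i, 0), (-1, 0, 0), (0, 0, 0))
  | ER.Con.add i j k => ((1, ix V i, 0), (1, ix V j, 0), (-1, ix V k, 0))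
  | ER.Con.mul i j k => ((1, ix V i, ix V j), (-1, ix V k, 0), (0, 0, 0))

/-- The bound `x² + s² = x₀²`. -/
def slack (N r : ℕ) : QC := ((1, r + 1, r + 1), (1, N + 1 + r, N + 1 + r), (-1, 0, 0))

/-- The homogeneous system. -/
def hsys (T : List ER.Con) : List QC :=
  T.map (hcon (svars T)) ++ (List.range (svars T).length).map (slack (svars T).length)

/-- The number of variables. -/
def hn (T : List ER.Con) : ℕ := 2 * (svars T).length + 1

theorem ix_lt {T : List ER.Con} {c : ER.Con} (hc : c ∈ T) {i : ℕ} (hi : i ∈ c.vars) :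
    ix (svars T) i < (svars T).length + 1 := by
  unfold ix
  have := List.idxOf_lt_length_of_mem (mem_svars hc hi)
  omega

theorem hsys_ok (T : List ER.Con) : ∀ g ∈ hsys T, GOk (hn T) g := by
  intro g hg
  unfold hsys at hg
  rw [List.mem_append, List.mem_map, List.mem_map] at hg
  rcases hg with ⟨c, hc, rfl⟩ | ⟨r, hr, rfl⟩
  · cases c with
    | one i =>
      have h1 := ix_lt hc (i := i) (by simp [Con.vars])
      refine ⟨⟨by simp [hcon], ?_, ?_⟩, ⟨by simp [hcon], ?_, ?_⟩, ⟨by simp [hcon], ?_, ?_⟩⟩ <;>
        simp only [hcon, hn] <;> omega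
    | add i j k =>
      have h1 := ix_lt hc (i := i) (by simp [Con.vars])
      have h2 := ix_lt hc (i := j) (by simp [Con.vars])
      have h3 := ix_lt hc (i := k) (by simp [Con.vars])
      refine ⟨⟨by simp [hcon], ?_, ?_⟩, ⟨by simp [hcon], ?_, ?_⟩, ⟨by simp [hcon], ?_, ?_⟩⟩ <;>
        simp only [hcon, hn] <;> omega
    | mul i j k =>
      have h1 := ix_lt hc (i := i) (by simp [Con.vars])
      have h2 := ix_lt hc (i := j) (by simp [Con.vars])
      have h3 := ix_lt hc (i := k) (by simp [Con.vars])
      refine ⟨⟨by simp [hcon], ?_, ?_⟩, ⟨by simp [hcon], ?_, ?_⟩, ⟨by simp [hcon], ?_, ?_⟩⟩ <;>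
        simp only [hcon, hn] <;> omega
  · have := List.mem_range.1 hr
    refine ⟨⟨by simp [slack], ?_, ?_⟩, ⟨by simp [slack], ?_, ?_⟩, ⟨by simp [slack], ?_, ?_⟩⟩ <;>
        simp only [slack, hn] <;> omega

theorem bsys_ne_nil (S : List ER.Con) : bsys S ≠ [] := by simp [bsys]

theorem hsys_ne_nil {T : List ER.Con} (hT : T ≠ []) : hsys T ≠ [] := by
  cases T with
  | nil => exact absurd rfl hT
  | cons c T => simp [hsys]

/-- A nonzero vector can be normalized. -/
theorem homSat_of {n : ℕ} {G : List QC} (x : ℕ → ℝ) (h0 : 0 < ∑ i ∈ range n, x i ^ 2)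
    (hx : ∀ g ∈ G, gev x x g = 0) : HomSat n G := by
  set s := ∑ i ∈ range n, x i ^ 2 with hs
  have hr : Real.sqrt s ^ 2 = s := Real.sq_sqrt h0.le
  have hr0 : 0 < Real.sqrt s := Real.sqrt_pos.2 h0
  refine ⟨fun i => x i / Real.sqrt s, ?_, fun g hg => ?_⟩
  · simp_rw [div_pow, hr]
    rw [← Finset.sum_div, ← hs, div_self h0.ne']
  · have h1 : gev (fun i => x i / Real.sqrt s) (fun i => x i / Real.sqrt s) g =
        gev x x g / (Real.sqrt s * Real.sqrt s) := by
      unfold gev tev bev
      field_simp
    rw [h1, hx g hg, zero_div]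

/-- **Correctness of the homogenization.** -/
theorem homSat_iff (S : List ER.Con) : HomSat (hn (bsys S)) (hsys (bsys S)) ↔ Sat S := by
  set T := bsys S with hT
  set V := svars T with hV
  set N := V.length with hN
  constructor
  · rintro ⟨x, hx, hg⟩
    have hslack : ∀ r < N, x (r + 1) ^ 2 + x (N + 1 + r) ^ 2 = x 0 ^ 2 := by
      intro r hr
      have h1 := hg (slack N r) (by
        unfold hsys
        exact List.mem_append_right _ (List.mem_map.2 ⟨r, List.mem_range.2 hr, rfl⟩))
      simp only [gev, tev, bev, slack] at h1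
      push_cast at h1
      linarith
    have hx0 : x 0 ≠ 0 := by
      intro h0
      have hz : ∀ i ∈ range (hn T), x i ^ 2 = 0 := by
        intro i hi
        have hi := Finset.mem_range.1 hi
        have hN' : (svars T).length = N := rfl
        unfold hn at hi
        rw [hN'] at hi
        rcases Nat.eq_zero_or_pos i with h | h
        · rw [h, h0]; ring
        · rcases lt_or_ge (i - 1) N with h2 | h2
          · have h3 := hslack (i - 1) h2
            rw [h0, Nat.sub_add_cancel h] at h3
            nlinarith [sq_nonneg (x i), sq_nonneg (x (N + 1 + (i - 1)))]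
          · have h3 := hslack (i - (N + 1)) (by omega)
            have h4 : N + 1 + (i - (N + 1)) = i := by omega
            rw [h0, h4] at h3
            nlinarith [sq_nonneg (x i), sq_nonneg (x (i - (N + 1) + 1))]
      rw [Finset.sum_eq_zero hz] at hx
      norm_num at hx
    apply sat_of_bsys (w := fun i => x (ix V i) / x 0)
    intro c hc
    have h1 := hg (hcon V c) (by
      unfold hsys
      exact List.mem_append_left _ (List.mem_map.2 ⟨c, hc, rfl⟩))
    cases c with
    | one i =>
      simp only [gev, tev, bev, hcon] at h1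
      push_cast at h1
      simp only [Con.HoldsC]
      rw [div_eq_div_iff hx0 (by norm_num)]
      have h2 : x 0 * (8 * x (ix V i) - x 0) = 0 := by linarith
      have h3 := (mul_eq_zero.1 h2).resolve_left hx0
      linarith
    | add i j k =>
      simp only [gev, tev, bev, hcon] at h1
      push_cast at h1
      simp only [Con.HoldsC]
      rw [← add_div]
      congr 1
      have h2 : x 0 * (x (ix V i) + x (ix V j) - x (ix V k)) = 0 := by linarith
      have h3 := (mul_eq_zero.1 h2).resolve_left hx0
      linarith
    | mul i j k =>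
      simp only [gev, tev, bev, hcon] at h1
      push_cast at h1
      simp only [Con.HoldsC]
      rw [div_mul_div_comm, div_eq_div_iff (mul_ne_zero hx0 hx0) hx0]
      have h2 : x (ix V i) * x (ix V j) = x (ix V k) * x 0 := by linarith
      rw [h2]
      ring
  · intro h
    obtain ⟨w, hw, hc⟩ := bsys_of_sat h
    let x : ℕ → ℝ := fun i => if i = 0 then 1 else if i < N + 1 then w (V.getD (i - 1) 0) else
      Real.sqrt (1 - w (V.getD (i - (N + 1)) 0) ^ 2)
    have x0 : x 0 = 1 := by simp [x]
    have x1 : ∀ r < N, x (r + 1) = w (V.getD r 0) := by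
      intro r hr
      simp only [x]
      rw [if_neg (by omega), if_pos (by omega)]
      simp
    have x2 : ∀ r < N, x (N + 1 + r) = Real.sqrt (1 - w (V.getD r 0) ^ 2) := by
      intro r hr
      simp only [x]
      rw [if_neg (by omega), if_neg (by omega)]
      congr 5
      omega
    have xi : ∀ i ∈ V, x (ix V i) = w i := by
      intro i hi
      have h1 := List.idxOf_lt_length_of_mem hi
      unfold ix
      rw [x1 _ h1, List.getD_eq_getElem _ _ h1, List.getElem_idxOf h1]
    apply homSat_of x
    · have h1 : x 0 ^ 2 ≤ ∑ i ∈ range (hn T), x i ^ 2 := by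
        apply Finset.single_le_sum (f := fun i => x i ^ 2) (fun i _ => sq_nonneg (x i))
        rw [Finset.mem_range]
        unfold hn
        omega
      rw [x0] at h1
      linarith
    · intro g hg
      unfold hsys at hg
      rw [List.mem_append, List.mem_map, List.mem_map] at hg
      rcases hg with ⟨c, hcT, rfl⟩ | ⟨r, hr, rfl⟩
      · have hh := hc c hcT
        cases c with
        | one i =>
          have e1 := xi i (mem_svars hcT (by simp [Con.vars]))
          simp only [Con.HoldsC] at hh
          simp only [gev, tev, bev, hcon]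
          rw [← hV, e1, x0, hh]
          push_cast
          norm_num
        | add i j k =>
          have e1 := xi i (mem_svars hcT (by simp [Con.vars]))
          have e2 := xi j (mem_svars hcT (by simp [Con.vars]))
          have e3 := xi k (mem_svars hcT (by simp [Con.vars]))
          simp only [Con.HoldsC] at hh
          simp only [gev, tev, bev, hcon]
          rw [← hV, e1, e2, e3, x0, ← hh]
          push_cast
          ring
        | mul i j k =>
          have e1 := xi i (mem_svars hcT (by simp [Con.vars]))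
          have e2 := xi j (mem_svars hcT (by simp [Con.vars]))
          have e3 := xi k (mem_svars hcT (by simp [Con.vars]))
          simp only [Con.HoldsC] at hh
          simp only [gev, tev, bev, hcon]
          rw [← hV, e1, e2, e3, x0, ← hh]
          push_cast
          ring
      · have hr := List.mem_range.1 hr
        simp only [gev, tev, bev, slack]
        rw [← hV, ← hN, x1 r hr, x2 r hr, x0]
        push_cast
        have h1 : 0 ≤ 1 - w (V.getD r 0) ^ 2 := by
          have := hw (V.getD r 0)
          have h2 : w (V.getD r 0) ^ 2 ≤ (1 / 8) ^ 2 := by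
            rw [← sq_abs]
            exact pow_le_pow_left₀ (abs_nonneg _) this 2
          have h3 : ((1 : ℝ) / 8) ^ 2 ≤ 1 := by norm_num
          linarith
        have h2 := Real.mul_self_sqrt h1
        nlinarith

/-! ### The instance -/

/-- The dimension of the tensor. -/
def dimT (T : List ER.Con) : ℕ := hn T + (forms (hn T) (hsys T)).length

/-- The tensor, as a nested list. -/
def tenL (d : ℕ) (L : List (List QT)) : List (List (List ℚ)) :=
  (List.range d).map (fun i => (List.range d).map (fun j => (List.range d).map (fun k =>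
    ((ten L i j k : ℤ) : ℚ))))

/-- The instance of a system: a tensor and a number. -/
def inst (S : List ER.Con) : List (List (List ℚ)) × ℚ :=
  (tenL (dimT (bsys S)) (forms (hn (bsys S)) (hsys (bsys S))),
    (((48 * (hsys (bsys S)).length : ℕ) : ℤ) : ℚ))

theorem isCube_tenL (d : ℕ) (L : List (List QT)) : IsCube (tenL d L) := by
  intro a ha
  unfold tenL at ha ⊢
  rw [List.mem_map] at ha
  obtain ⟨i, _, rfl⟩ := ha
  simp only [List.length_map, List.length_range, true_and]
  intro b hb
  rw [List.mem_map] at hb
  obtain ⟨j, _, rfl⟩ := hb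
  simp

theorem length_tenL (d : ℕ) (L : List (List QT)) : (tenL d L).length = d := by simp [tenL]

theorem getD_map_range {β : Type} (d i : ℕ) (f : ℕ → β) (b : β) (hi : i < d) :
    ((List.range d).map f).getD i b = f i := by
  rw [List.getD_eq_getElem _ _ (by simpa using hi)]
  simp

theorem entry_tenL {d : ℕ} {L : List (List QT)} {i j k : ℕ} (hi : i < d) (hj : j < d)
    (hk : k < d) : entry (tenL d L) i j k = ((ten L i j k : ℤ) : ℚ) := by
  unfold entry tenL
  rw [getD_map_range d i _ _ hi, getD_map_range d j _ _ hj, getD_map_range d k _ _ hk]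

theorem isSV_congr {d : ℕ} {t t' : ℕ → ℕ → ℕ → ℝ} {σ : ℝ}
    (h : ∀ i < d, ∀ j < d, ∀ k < d, t i j k = t' i j k) : IsSV d t σ ↔ IsSV d t' σ := by
  have key : ∀ t t' : ℕ → ℕ → ℕ → ℝ, (∀ i < d, ∀ j < d, ∀ k < d, t i j k = t' i j k) →
      IsSV d t σ → IsSV d t' σ := by
    rintro t t' h ⟨x, y, z, hx, hy, hz, h1, h2, h3⟩
    refine ⟨x, y, z, hx, hy, hz, ?_, ?_, ?_⟩
    · intro i hi
      rw [← h1 i hi]
      exact Finset.sum_congr rfl fun j hj => Finset.sum_congr rfl fun k hk => by
        rw [h i hi j (Finset.mem_range.1 hj) k (Finset.mem_range.1 hk)]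
    · intro j hj
      rw [← h2 j hj]
      exact Finset.sum_congr rfl fun i hi => Finset.sum_congr rfl fun k hk => by
        rw [h i (Finset.mem_range.1 hi) j hj k (Finset.mem_range.1 hk)]
    · intro k hk
      rw [← h3 k hk]
      exact Finset.sum_congr rfl fun i hi => Finset.sum_congr rfl fun j hj => by
        rw [h i (Finset.mem_range.1 hi) j (Finset.mem_range.1 hj) k hk]
  exact ⟨key t t' h, key t' t fun i hi j hj k hk => (h i hi j hj k hk).symm⟩

/-- The singular value problem for nested lists. -/
theorem tsv_iff (q : List (List (List ℚ)) × ℚ) : TensorSingularValue q ↔ IsCube q.1 ∧ 0 < q.2 ∧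
    IsSV q.1.length (fun i j k => ((entry q.1 i j k : ℚ) : ℝ)) (q.2 : ℝ) := by
  unfold TensorSingularValue
  rw [isSingularValue_iff (fun i j k => ((entry q.1 i j k : ℚ) : ℝ))]

theorem tsv_tenL (d : ℕ) (L : List (List QT)) (q : ℚ) (hq : 0 < q) :
    TensorSingularValue (tenL d L, q) ↔ IsSV d (fun i j k => (ten L i j k : ℝ)) (q : ℝ) := by
  rw [tsv_iff]
  have h3 : (tenL d L).length = d := length_tenL _ _
  simp only [h3]
  have key := isSV_congr (d := d) (t := fun i j k => (ten L i j k : ℝ))
    (t' := fun i j k => ((entry (tenL d L) i j k : ℚ) : ℝ)) (σ := (q : ℝ))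
    (fun i hi j hj k hk => by
      show (ten L i j k : ℝ) = ((entry (tenL d L) i j k : ℚ) : ℝ)
      rw [entry_tenL hi hj hk]
      push_cast
      rfl)
  rw [key]
  exact ⟨fun h => h.2.2, fun h => ⟨isCube_tenL _ _, hq, h⟩⟩

/-- **Correctness of the reduction.** -/
theorem sat_iff_tsv (S : List ER.Con) : Sat S ↔ TensorSingularValue (inst S) := by
  have hne := hsys_ne_nil (bsys_ne_nil S)
  have hpos : 0 < (hsys (bsys S)).length := List.length_pos_iff.2 hne
  have h2 : (0 : ℚ) < (((48 * (hsys (bsys S)).length : ℕ) : ℤ) : ℚ) := by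
    exact_mod_cast (by omega : 0 < 48 * (hsys (bsys S)).length)
  have h4 : (((((48 * (hsys (bsys S)).length : ℕ) : ℤ) : ℚ)) : ℝ) =
      48 * ((hsys (bsys S)).length : ℝ) := by
    push_cast
    ring
  unfold inst
  rw [tsv_tenL _ _ _ h2, h4, main_iff (hsys_ok (bsys S)) hne (by unfold dimT; omega)
    (by unfold dimT; omega), homSat_iff S]

end Pool.Agent.H78R3.TSV
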