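import Pool.Agent.H78R3.TSV.Alg
import Pool.Agent.H78R3.TSV.Defs

/-!
# Singular values of the tensor of a homogeneous quadratic system
-/

namespace Pool.Agent.H78R3.TSV

open Finset

/-- A version with vectors indexed by all natural numbers. -/
def IsSV (d : ℕ) (t : ℕ → ℕ → ℕ → ℝ) (σ : ℝ) : Prop :=
  ∃ x y z : ℕ → ℝ, ∑ i ∈ range d, x i ^ 2 = 1 ∧ ∑ i ∈ range d, y i ^ 2 = 1 ∧
    ∑ i ∈ range d, z i ^ 2 = 1 ∧
    (∀ i < d, ∑ j ∈ range d, ∑ k ∈ range d, t i j k * y j * z k = σ * x i) ∧
    (∀ j < d, ∑ i ∈ range d, ∑ k ∈ range d, t i j k * x i * z k = σ * y j) ∧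
    (∀ k < d, ∑ i ∈ range d, ∑ j ∈ range d, t i j k * x i * y j = σ * z k)

theorem norm_eq_one_iff {d : ℕ} (x : EuclideanSpace ℝ (Fin d)) : ‖x‖ = 1 ↔ ∑ i, x i ^ 2 = 1 := by
  rw [EuclideanSpace.norm_eq, Real.sqrt_eq_one]
  simp

theorem isSingularValue_iff {d : ℕ} (t : ℕ → ℕ → ℕ → ℝ) (σ : ℝ) :
    IsSingularValue (fun i j k : Fin d => t i j k) σ ↔ IsSV d t σ := by
  constructor
  · rintro ⟨x, y, z, hx, hy, hz, h1, h2, h3⟩
    rw [norm_eq_one_iff] at hx hy hz
    let X : ℕ → ℝ := fun i => if h : i < d then x ⟨i, h⟩ else 0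
    let Y : ℕ → ℝ := fun i => if h : i < d then y ⟨i, h⟩ else 0
    let Z : ℕ → ℝ := fun i => if h : i < d then z ⟨i, h⟩ else 0
    have eX : ∀ i : Fin d, X i = x i := fun i => by simp [X]
    have eY : ∀ i : Fin d, Y i = y i := fun i => by simp [Y]
    have eZ : ∀ i : Fin d, Z i = z i := fun i => by simp [Z]
    refine ⟨X, Y, Z, ?_, ?_, ?_, ?_, ?_, ?_⟩
    · rw [← Fin.sum_univ_eq_sum_range (fun i => X i ^ 2)]; simpa only [eX] using hx
    · rw [← Fin.sum_univ_eq_sum_range (fun i => Y i ^ 2)]; simpa only [eY] using hy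
    · rw [← Fin.sum_univ_eq_sum_range (fun i => Z i ^ 2)]; simpa only [eZ] using hz
    · intro i hi
      rw [← Fin.sum_univ_eq_sum_range (fun j => ∑ k ∈ range d, t i j k * Y j * Z k)]
      simp_rw [← Fin.sum_univ_eq_sum_range (fun k => t i _ k * Y _ * Z k), eY, eZ]
      rw [h1 ⟨i, hi⟩, ← eX]
    · intro j hj
      rw [← Fin.sum_univ_eq_sum_range (fun i => ∑ k ∈ range d, t i j k * X i * Z k)]
      simp_rw [← Fin.sum_univ_eq_sum_range (fun k => t _ j k * X _ * Z k), eX, eZ]
      rw [h2 ⟨j, hj⟩, ← eY]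
    · intro k hk
      rw [← Fin.sum_univ_eq_sum_range (fun i => ∑ j ∈ range d, t i j k * X i * Y j)]
      simp_rw [← Fin.sum_univ_eq_sum_range (fun j => t _ j k * X _ * Y j), eX, eY]
      rw [h3 ⟨k, hk⟩, ← eZ]
  · rintro ⟨x, y, z, hx, hy, hz, h1, h2, h3⟩
    refine ⟨WithLp.toLp 2 fun i => x i, WithLp.toLp 2 fun i => y i, WithLp.toLp 2 fun i => z i,
      ?_, ?_, ?_, ?_, ?_, ?_⟩
    · rw [norm_eq_one_iff, ← hx]
      exact Fin.sum_univ_eq_sum_range (fun i => x i ^ 2) d
    · rw [norm_eq_one_iff, ← hy]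
      exact Fin.sum_univ_eq_sum_range (fun i => y i ^ 2) d
    · rw [norm_eq_one_iff, ← hz]
      exact Fin.sum_univ_eq_sum_range (fun i => z i ^ 2) d
    · intro i
      have := h1 i i.2
      rw [← Fin.sum_univ_eq_sum_range (fun j => ∑ k ∈ range d, t i j k * y j * z k)] at this
      simp_rw [← Fin.sum_univ_eq_sum_range (fun k => t _ _ k * y _ * z k)] at this
      exact this
    · intro j
      have := h2 j j.2
      rw [← Fin.sum_univ_eq_sum_range (fun i => ∑ k ∈ range d, t i j k * x i * z k)] at this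
      simp_rw [← Fin.sum_univ_eq_sum_range (fun k => t _ _ k * x _ * z k)] at this
      exact this
    · intro k
      have := h3 k k.2
      rw [← Fin.sum_univ_eq_sum_range (fun i => ∑ j ∈ range d, t i j k * x i * y j)] at this
      simp_rw [← Fin.sum_univ_eq_sum_range (fun j => t _ j _ * x _ * y j)] at this
      exact this

/-- The coefficient of `x_i y_j` in a form. -/
def cf (f : List QT) (i j : ℕ) : ℤ :=
  (f.map (fun t => (if t.2.1 = i ∧ t.2.2 = j then t.1 else 0) +
    (if t.2.2 = i ∧ t.2.1 = j then t.1 else 0))).sum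

/-- All indices of the terms of a form are less than `n`. -/
def FOk (n : ℕ) (f : List QT) : Prop := ∀ t ∈ f, t.2.1 < n ∧ t.2.2 < n

theorem cf_cons (t : QT) (f : List QT) (i j : ℕ) : cf (t :: f) i j =
    (if t.2.1 = i ∧ t.2.2 = j then t.1 else 0) + (if t.2.2 = i ∧ t.2.1 = j then t.1 else 0) +
      cf f i j := by simp [cf]

theorem sum_ite_pair (d a b : ℕ) (ha : a < d) (hb : b < d) (c : ℝ) (x y : ℕ → ℝ) :
    ∑ i ∈ range d, ∑ j ∈ range d, (if a = i ∧ b = j then c else 0) * x i * y j = c * x a * y b := by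
  rw [Finset.sum_eq_single a, Finset.sum_eq_single b]
  · simp
  · intro j _ hj
    rw [if_neg (fun h => hj h.2.symm)]; simp
  · intro h; exact absurd (Finset.mem_range.2 hb) h
  · intro i _ hi
    apply Finset.sum_eq_zero
    intro j _
    rw [if_neg (fun h => hi h.1.symm)]; simp
  · intro h; exact absurd (Finset.mem_range.2 ha) h

/-- Double sums of coefficients. -/
theorem sum_cf (d : ℕ) (f : List QT) (hf : FOk d f) (x y : ℕ → ℝ) :
    ∑ i ∈ range d, ∑ j ∈ range d, (cf f i j : ℝ) * x i * y j = fev x y f := by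
  induction f with
  | nil => simp [cf]
  | cons t f ih =>
    have h1 := hf t List.mem_cons_self
    have h2 := ih (fun t ht => hf t (List.mem_cons_of_mem _ ht))
    rw [fev_cons, ← h2]
    simp_rw [cf_cons]
    push_cast
    simp_rw [add_mul, Finset.sum_add_distrib]
    rw [sum_ite_pair d _ _ h1.1 h1.2, sum_ite_pair d _ _ h1.2 h1.1]
    unfold tev bev
    ring

theorem sum_ite_single (d a b i : ℕ) (hb : b < d) (c : ℝ) (y : ℕ → ℝ) :
    ∑ j ∈ range d, (if a = i ∧ b = j then c else 0) * y j = c * (if a = i then 1 else 0) * y b := by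
  rw [Finset.sum_eq_single b]
  · by_cases h : a = i <;> simp [h]
  · intro j _ hj
    rw [if_neg (fun h => hj h.2.symm)]; simp
  · intro h; exact absurd (Finset.mem_range.2 hb) h

/-- The unit vector. -/
def ei (i : ℕ) : ℕ → ℝ := fun a => if a = i then 1 else 0

/-- Single sums of coefficients. -/
theorem sum_cf_left (d i : ℕ) (f : List QT) (hf : FOk d f) (y : ℕ → ℝ) :
    ∑ j ∈ range d, (cf f i j : ℝ) * y j = fev (ei i) y f := by
  induction f with
  | nil => simp [cf]
  | cons t f ih =>
    have h1 := hf t List.mem_cons_self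
    have h2 := ih (fun t ht => hf t (List.mem_cons_of_mem _ ht))
    rw [fev_cons, ← h2]
    simp_rw [cf_cons]
    push_cast
    simp_rw [add_mul, Finset.sum_add_distrib]
    rw [sum_ite_single d _ _ _ h1.2, sum_ite_single d _ _ _ h1.1]
    unfold tev bev ei
    ring

theorem cf_symm (f : List QT) (i j : ℕ) : cf f i j = cf f j i := by
  induction f with
  | nil => simp [cf]
  | cons t f ih =>
    rw [cf_cons, cf_cons, ih]
    congr 1
    rw [add_comm]
    congr 1
    · congr 1
      exact propext ⟨fun h => ⟨h.2, h.1⟩, fun h => ⟨h.2, h.1⟩⟩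
    · congr 1
      exact propext ⟨fun h => ⟨h.2, h.1⟩, fun h => ⟨h.2, h.1⟩⟩

/-- The tensor of a list of forms. -/
def ten (L : List (List QT)) (i j k : ℕ) : ℤ := cf (L.getD k []) i j

theorem sum_getD {d : ℕ} (L : List (List QT)) (hL : L.length ≤ d) (φ : List QT → ℝ)
    (h0 : φ [] = 0) : ∑ k ∈ range d, φ (L.getD k []) = (L.map φ).sum := by
  induction L generalizing d with
  | nil => simp [h0]
  | cons f L ih =>
    obtain ⟨d', rfl⟩ : ∃ d', d = d' + 1 := ⟨d - 1, by simp at hL; omega⟩
    rw [Finset.sum_range_succ']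
    simp only [List.getD_cons_succ, List.getD_cons_zero, List.map_cons, List.sum_cons]
    rw [ih (by simpa using hL), add_comm]

theorem fok_getD {n : ℕ} {L : List (List QT)} (hL : ∀ f ∈ L, FOk n f) (k : ℕ) :
    FOk n (L.getD k []) := by
  intro t ht
  rcases lt_or_ge k L.length with h | h
  · rw [List.getD_eq_getElem _ _ h] at ht
    exact hL _ (List.getElem_mem h) t ht
  · rw [List.getD_eq_default _ _ h] at ht
    simp at ht

theorem fok_forms {n : ℕ} {G : List QC} (hG : ∀ g ∈ G, GOk n g) : ∀ f ∈ forms n G, FOk n f := by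
  intro f hf
  unfold forms at hf
  rw [List.mem_flatMap] at hf
  obtain ⟨g, hg, hf⟩ := hf
  rw [List.mem_flatMap] at hf
  obtain ⟨_, _, hf⟩ := hf
  obtain ⟨⟨a1, a2, a3⟩, ⟨b1, b2, b3⟩, ⟨c1, c2, c3⟩⟩ := hG g hg
  unfold cforms at hf
  rw [List.mem_append, List.mem_flatMap] at hf
  rcases hf with hf | ⟨t, _, hf⟩
  · simp only [List.mem_cons, List.not_mem_nil, or_false] at hf
    rcases hf with rfl | rfl | rfl <;>
    · intro t ht
      simp only [List.mem_cons, List.not_mem_nil, or_false, tneg] at ht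
      rcases ht with rfl | rfl <;> simp_all
  · rw [List.mem_flatMap] at hf
    obtain ⟨p, hp, hf⟩ := hf
    unfold copies at hf
    rw [List.mem_map] at hf
    obtain ⟨_, _, rfl⟩ := hf
    intro t ht
    simp only [List.mem_cons, List.not_mem_nil, or_false] at ht
    subst ht
    unfold pairs at hp
    rw [List.mem_flatMap] at hp
    obtain ⟨i, hi, hp⟩ := hp
    rw [List.mem_map] at hp
    obtain ⟨j, hj, rfl⟩ := hp
    exact ⟨List.mem_range.1 hi, List.mem_range.1 hj⟩

theorem sum_sq_nonneg_list (l : List ℝ) (h : ∀ a ∈ l, 0 ≤ a) (h0 : l.sum ≤ 0) : ∀ a ∈ l, a = 0 := by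
  induction l with
  | nil => simp
  | cons b l ih =>
    rw [List.sum_cons] at h0
    have h1 := h b List.mem_cons_self
    have h2 := List.sum_nonneg (fun a ha => h a (List.mem_cons_of_mem _ ha))
    intro a ha
    rcases List.mem_cons.1 ha with rfl | ha
    · linarith
    · exact ih (fun a ha => h a (List.mem_cons_of_mem _ ha)) (by linarith) a ha

/-- A nonzero solution of the homogeneous quadratic system. -/
def HomSat (n : ℕ) (G : List QC) : Prop :=
  ∃ x : ℕ → ℝ, ∑ i ∈ range n, x i ^ 2 = 1 ∧ ∀ g ∈ G, gev x x g = 0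

theorem bev_smul_right {n : ℕ} {x y : ℕ → ℝ} {s : ℝ} (h : ∀ i < n, y i = s * x i) {p : ℕ × ℕ}
    (h1 : p.1 < n) (h2 : p.2 < n) : bev x y p = s * bev x x p := by
  unfold bev
  rw [h _ h1, h _ h2]
  ring

theorem gev_smul_right {n : ℕ} {x y : ℕ → ℝ} {s : ℝ} (h : ∀ i < n, y i = s * x i) {g : QC}
    (hg : GOk n g) : gev x y g = s * gev x x g := by
  obtain ⟨⟨a1, a2, a3⟩, ⟨b1, b2, b3⟩, ⟨c1, c2, c3⟩⟩ := hg
  unfold gev tev
  rw [bev_smul_right h a2 a3, bev_smul_right h b2 b3, bev_smul_right h c2 c3]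
  ring

/-- **The main equivalence.** -/
theorem main_iff {n d : ℕ} {G : List QC} (hG : ∀ g ∈ G, GOk n g) (hne : G ≠ []) (hnd : n ≤ d)
    (hd : (forms n G).length ≤ d) :
    IsSV d (fun i j k => (ten (forms n G) i j k : ℝ)) (48 * (G.length : ℝ)) ↔ HomSat n G := by
  have hm : (0 : ℝ) < G.length := by
    have : 0 < G.length := List.length_pos_iff.2 hne
    exact_mod_cast this
  set m : ℝ := (G.length : ℝ) with hmdef
  have hF := fok_forms hG
  have hFd : ∀ k, FOk d ((forms n G).getD k []) := fun k t ht =>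
    ⟨(fok_getD hF k t ht).1.trans_le hnd, (fok_getD hF k t ht).2.trans_le hnd⟩
  constructor
  · rintro ⟨x, y, z, hx, hy, hz, h1, h2, h3⟩
    have h4 : ∀ k < d, fev x y ((forms n G).getD k []) = 48 * m * z k := by
      intro k hk
      rw [← h3 k hk, ← sum_cf d _ (hFd k)]
      rfl
    have h5 : S x y x y (forms n G) = (48 * m) ^ 2 := by
      unfold S
      rw [← sum_getD (forms n G) hd (fun f => fev x y f * fev x y f) (by simp)]
      rw [Finset.sum_congr rfl (fun k hk => by
        rw [h4 k (Finset.mem_range.1 hk)])]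
      have : ∀ k, 48 * m * z k * (48 * m * z k) = (48 * m) ^ 2 * z k ^ 2 := fun k => by ring
      simp_rw [this]
      rw [← Finset.mul_sum, hz, mul_one]
    rw [S_forms x y x y n G hG, sum_bev] at h5
    set a := ∑ i ∈ range n, x i ^ 2 with ha
    set b := ∑ i ∈ range n, y i ^ 2 with hb
    set c := ∑ i ∈ range n, x i * y i with hc
    have ea : ∑ i ∈ range n, x i * x i = a := by simp only [ha, sq]
    have eb : ∑ i ∈ range n, y i * y i = b := by simp only [hb, sq]
    have ec : ∑ i ∈ range n, y i * x i = c := by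
      rw [hc]; exact Finset.sum_congr rfl (fun i _ => mul_comm _ _)
    rw [ea, eb, ec] at h5
    have hsub : range n ⊆ range d := Finset.range_subset_range.2 hnd
    have ha1 : a ≤ 1 := by
      rw [← hx]
      exact Finset.sum_le_sum_of_subset_of_nonneg hsub (fun _ _ _ => sq_nonneg _)
    have hb1 : b ≤ 1 := by
      rw [← hy]
      exact Finset.sum_le_sum_of_subset_of_nonneg hsub (fun _ _ _ => sq_nonneg _)
    have ha0 : 0 ≤ a := Finset.sum_nonneg (fun _ _ => sq_nonneg _)
    have hb0 : 0 ≤ b := Finset.sum_nonneg (fun _ _ => sq_nonneg _)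
    have hcs : c * c ≤ a * b := by
      have := Finset.sum_mul_sq_le_sq_mul_sq (range n) x y
      rw [← hc, ← ha, ← hb] at this
      linarith [this, sq c]
    have hab : a * b ≤ 1 := by nlinarith
    have hg0 : ∀ r ∈ G.map (fun g => gev x y g * gev x y g), 0 ≤ r := by
      intro r hr
      obtain ⟨g, _, rfl⟩ := List.mem_map.1 hr
      exact mul_self_nonneg _
    have hsum0 := List.sum_nonneg hg0
    set Q := (G.map (fun g => gev x y g * gev x y g)).sum with hQ
    have hm2 : 0 < m ^ 2 := by positivity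
    have hmQ : 0 ≤ m * Q := mul_nonneg hm.le hsum0
    have h6 : 1152 * m ^ 2 * ((1 - a * b) + (1 - c * c)) + m * Q = 0 := by
      linarith [h5]
    have h7 : 0 ≤ (1 - a * b) + (1 - c * c) := by linarith
    have h8 : 0 ≤ 1152 * m ^ 2 * ((1 - a * b) + (1 - c * c)) := by positivity
    have h9 : m * Q = 0 := by linarith
    have hQ0 : Q = 0 := (mul_eq_zero.1 h9).resolve_left hm.ne'
    have h10 : (1 - a * b) + (1 - c * c) = 0 := by
      have : 1152 * m ^ 2 * ((1 - a * b) + (1 - c * c)) = 0 := by linarith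
      exact (mul_eq_zero.1 this).resolve_left (by positivity)
    have hab' : a * b = 1 := by linarith
    have hcc : c * c = 1 := by linarith
    have ha' : a = 1 := by nlinarith
    have hb' : b = 1 := by rw [ha', one_mul] at hab'; exact hab'
    have hyx : ∀ i < n, y i = c * x i := by
      have h11 : ∑ i ∈ range n, (y i - c * x i) ^ 2 = 0 := by
        have : ∀ i, (y i - c * x i) ^ 2 = y i ^ 2 - 2 * c * (x i * y i) + c * c * x i ^ 2 := by
          intro i; ring
        simp_rw [this, Finset.sum_add_distrib, Finset.sum_sub_distrib, ← Finset.mul_sum]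
        rw [← ha, ← hb, ← hc, ha', hb']
        nlinarith
      intro i hi
      have h12 := (Finset.sum_eq_zero_iff_of_nonneg (fun i _ => sq_nonneg _)).1 h11 i
        (Finset.mem_range.2 hi)
      have := pow_eq_zero_iff (two_ne_zero) |>.1 h12
      linarith
    refine ⟨x, ha', fun g hg => ?_⟩
    have h13 := sum_sq_nonneg_list _ hg0 hQ0.le (gev x y g * gev x y g)
      (List.mem_map.2 ⟨g, hg, rfl⟩)
    have h14 : gev x y g = 0 := mul_self_eq_zero.1 h13
    rw [gev_smul_right hyx (hG g hg)] at h14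
    have hc0 : c ≠ 0 := by
      intro h; rw [h] at hcc; norm_num at hcc
    exact (mul_eq_zero.1 h14).resolve_left hc0
  · rintro ⟨x₀, hx₀, hg₀⟩
    -- truncate
    let x : ℕ → ℝ := fun i => if i < n then x₀ i else 0
    have hxn : ∀ i < n, x i = x₀ i := fun i hi => by simp [x, hi]
    have hxo : ∀ i, n ≤ i → x i = 0 := fun i hi => by simp [x, not_lt.2 hi]
    have hx : ∑ i ∈ range n, x i ^ 2 = 1 := by
      rw [← hx₀]
      exact Finset.sum_congr rfl (fun i hi => by rw [hxn i (Finset.mem_range.1 hi)])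
    have hg : ∀ g ∈ G, gev x x g = 0 := by
      intro g hg
      rw [← hg₀ g hg]
      obtain ⟨⟨a1, a2, a3⟩, ⟨b1, b2, b3⟩, ⟨c1, c2, c3⟩⟩ := hG g hg
      unfold gev tev bev
      rw [hxn _ a2, hxn _ a3, hxn _ b2, hxn _ b3, hxn _ c2, hxn _ c3]
    have hsumd : ∀ φ : ℕ → ℝ, (∀ i, n ≤ i → φ i = 0) →
        ∑ i ∈ range d, φ i = ∑ i ∈ range n, φ i := by
      intro φ hφ
      symm
      apply Finset.sum_subset (Finset.range_subset_range.2 hnd)
      intro i _ hi
      exact hφ i (not_lt.1 (fun h => hi (Finset.mem_range.2 h)))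
    have hxd : ∑ i ∈ range d, x i ^ 2 = 1 := by
      rw [hsumd _ (fun i hi => by rw [hxo i hi]; ring), hx]
    let z : ℕ → ℝ := fun k => fev x x ((forms n G).getD k []) / (48 * m)
    have hσ : (48 * m) ≠ 0 := by positivity
    have hquad : ∀ x' y' : ℕ → ℝ, S x x x' y' (forms n G) = 2304 * m ^ 2 *
        ((∑ i ∈ range n, x i * x' i) * (∑ i ∈ range n, x i * y' i)) := by
      intro x' y'
      rw [S_forms x x x' y' n G hG, sum_bev]
      have : (G.map (fun g => gev x x g * gev x' y' g)).sum = 0 := by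
        apply List.sum_eq_zero
        intro r hr
        obtain ⟨g, hg', rfl⟩ := List.mem_map.1 hr
        rw [hg g hg', zero_mul]
      rw [this]
      ring
    have hz : ∑ k ∈ range d, z k ^ 2 = 1 := by
      have h1 : ∀ k, z k ^ 2 = (1 / (48 * m) ^ 2) *
          (fev x x ((forms n G).getD k []) * fev x x ((forms n G).getD k [])) := by
        intro k
        simp only [z]
        field_simp
      simp_rw [h1]
      rw [← Finset.mul_sum, sum_getD (forms n G) hd (fun f => fev x x f * fev x x f) (by simp)]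
      have h2 := hquad x x
      unfold S at h2
      rw [h2]
      have h3 : ∑ i ∈ range n, x i * x i = 1 := by rw [← hx]; simp only [sq]
      rw [h3]
      field_simp
      ring
    have hei : ∀ i, ∑ a ∈ range n, x a * ei i a = x i := by
      intro i
      rcases lt_or_ge i n with h | h
      · rw [Finset.sum_eq_single i]
        · simp [ei]
        · intro a _ ha
          simp [ei, ha]
        · intro h'; exact absurd (Finset.mem_range.2 h) h'
      · rw [hxo i h]
        apply Finset.sum_eq_zero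
        intro a ha
        have : a ≠ i := fun h' => by
          have := Finset.mem_range.1 ha
          omega
        simp [ei, this]
    have hmain : ∀ i, ∑ k ∈ range d, fev (ei i) x ((forms n G).getD k []) * z k =
        48 * m * x i := by
      intro i
      have h1 : ∀ k, fev (ei i) x ((forms n G).getD k []) * z k = (1 / (48 * m)) *
          (fev x x ((forms n G).getD k []) * fev (ei i) x ((forms n G).getD k [])) := by
        intro k
        simp only [z]
        ring
      simp_rw [h1]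
      rw [← Finset.mul_sum, sum_getD (forms n G) hd (fun f => fev x x f * fev (ei i) x f) (by simp)]
      have h2 := hquad (ei i) x
      unfold S at h2
      rw [h2, hei]
      have h3 : ∑ i ∈ range n, x i * x i = 1 := by rw [← hx]; simp only [sq]
      rw [h3]
      field_simp
      ring
    refine ⟨x, x, z, hxd, hxd, hz, ?_, ?_, ?_⟩
    · intro i _
      rw [Finset.sum_comm, ← hmain i]
      apply Finset.sum_congr rfl
      intro k _
      rw [← sum_cf_left d i _ (hFd k), Finset.sum_mul]
      rfl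
    · intro j _
      rw [Finset.sum_comm, ← hmain j]
      apply Finset.sum_congr rfl
      intro k _
      rw [← sum_cf_left d j _ (hFd k), Finset.sum_mul]
      apply Finset.sum_congr rfl
      intro i _
      simp only [ten]
      rw [cf_symm]
    · intro k _
      have h1 := sum_cf d _ (hFd k) x x
      simp only [ten]
      rw [h1]
      simp only [z]
      field_simp

end Pool.Agent.H78R3.TSV
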