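import Pool.Agent.H78R3.TSV.Red
import Pool.Agent.ER.Hard
import Pool.Agent.ER.Build
import Pool.Agent.H612.CollectPoly
import Pool.Agent.H687R2.IntPoly

/-!
# The reduction is computable in polynomial time
-/

namespace Pool.Agent.NPC.H78TSV

open Pool.Agent.NPC Pool.Agent.NPC.ER Pool.Agent.H78R3.TSV

section

variable {α : Type} [TEnc α]

theorem poly_svars {T : α → List ER.Con} (hT : Poly T) : Poly (fun a => svars (T a)) := by
  have h0 : Poly (fun p : α × ER.Con => p.2.code) := poly_con_code (Poly.snd Poly.id)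
  have e : ∀ c : ER.Con, c.vars = if c.code.1 = 0 then [c.code.2.1] else
      [c.code.2.1, c.code.2.2.1, c.code.2.2.2] := by
    intro c; cases c <;> rfl
  refine Poly.flatMap (F := fun (_ : α) (c : ER.Con) => c.vars) hT ?_
  refine (Poly.ite (p := fun p : α × ER.Con => p.2.code.1 = 0)
    (f := fun p => [p.2.code.2.1]) (g := fun p => [p.2.code.2.1, p.2.code.2.2.1, p.2.code.2.2.2])
    (Poly.decide_eq (Poly.fst h0) (Poly.const 0)) ?_ ?_).congr fun p => (e p.2).symm
  · exact Poly.cons (Poly.fst (Poly.snd h0)) (Poly.const [])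
  · exact Poly.cons (Poly.fst (Poly.snd h0)) (Poly.cons (Poly.fst (Poly.snd (Poly.snd h0)))
      (Poly.cons (Poly.snd (Poly.snd (Poly.snd h0))) (Poly.const [])))

theorem poly_ix {V : α → List ℕ} {i : α → ℕ} (hV : Poly V) (hi : Poly i) :
    Poly (fun a => ix (V a) (i a)) := Poly.succ (H612.poly_idxOf hV hi)

theorem hcon_eq (V : List ℕ) (c : ER.Con) : hcon V c =
    if c.code.1 = 0 then ((8, ix V c.code.2.1, 0), (-1, 0, 0), (0, 0, 0))
    else if c.code.1 = 1 then ((1, ix V c.code.2.1, 0), (1, ix V c.code.2.2.1, 0),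
      (-1, ix V c.code.2.2.2, 0))
    else ((1, ix V c.code.2.1, ix V c.code.2.2.1), (-1, ix V c.code.2.2.2, 0), (0, 0, 0)) := by
  cases c <;> rfl

theorem poly_hcon {V : α → List ℕ} {c : α → ER.Con} (hV : Poly V) (hc : Poly c) :
    Poly (fun a => hcon (V a) (c a)) := by
  have h0 : Poly (fun a => (c a).code) := poly_con_code hc
  have i1 := poly_ix hV (Poly.fst (Poly.snd h0))
  have i2 := poly_ix hV (Poly.fst (Poly.snd (Poly.snd h0)))
  have i3 := poly_ix hV (Poly.snd (Poly.snd (Poly.snd h0)))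
  have z : Poly (fun _ : α => (0 : ℕ)) := Poly.const 0
  refine (Poly.ite (Poly.decide_eq (Poly.fst h0) (Poly.const 0))
    (Poly.pair (Poly.pair (Poly.const 8) (Poly.pair i1 z)) (Poly.const _))
    (Poly.ite (Poly.decide_eq (Poly.fst h0) (Poly.const 1))
      (Poly.pair (Poly.pair (Poly.const 1) (Poly.pair i1 z))
        (Poly.pair (Poly.pair (Poly.const 1) (Poly.pair i2 z))
          (Poly.pair (Poly.const (-1)) (Poly.pair i3 z))))
      (Poly.pair (Poly.pair (Poly.const 1) (Poly.pair i1 i2))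
        (Poly.pair (Poly.pair (Poly.const (-1)) (Poly.pair i3 z)) (Poly.const _))))).congr
    fun a => (hcon_eq _ _).symm

theorem poly_slack {N r : α → ℕ} (hN : Poly N) (hr : Poly r) :
    Poly (fun a => slack (N a) (r a)) := by
  have h1 := Poly.succ hr
  have h2 : Poly (fun a => N a + 1 + r a) := Poly.add (Poly.succ hN) hr
  exact Poly.pair (Poly.pair (Poly.const 1) (Poly.pair h1 h1))
    (Poly.pair (Poly.pair (Poly.const 1) (Poly.pair h2 h2)) (Poly.const _))

theorem poly_hsys {T : α → List ER.Con} (hT : Poly T) : Poly (fun a => hsys (T a)) := by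
  have hV := poly_svars hT
  refine Poly.append ?_ ?_
  · exact Poly.map (F := fun a c => hcon (svars (T a)) c) hT
      (poly_hcon (hV.comp (Poly.fst Poly.id)) (Poly.snd Poly.id))
  · refine Poly.map (F := fun a r => slack (svars (T a)).length r) (UPoly.length hV).range ?_
    exact poly_slack ((Poly.length hV).comp (Poly.fst Poly.id)) (Poly.snd Poly.id)

theorem upoly_hn {T : α → List ER.Con} (hT : Poly T) : UPoly (fun a => hn (T a)) :=
  UPoly.add (UPoly.mul (UPoly.const 2) (UPoly.length (poly_svars hT))) (UPoly.const 1)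

theorem poly_pairs {n : α → ℕ} (hn : UPoly n) : Poly (fun a => pairs (n a)) := by
  refine Poly.flatMap (F := fun a i => (List.range (n a)).map (fun j => (i, j))) hn.range ?_
  exact Poly.map (F := fun (p : α × ℕ) j => (p.2, j)) (hn.range.comp (Poly.fst Poly.id))
    (Poly.pair (Poly.snd (Poly.fst Poly.id)) (Poly.snd Poly.id))

theorem poly_wt {t : α → QT} {p : α → ℕ × ℕ} (ht : Poly t) (hp : Poly p) :
    Poly (fun a => wt (t a) (p a)) := by
  have h1 : Poly (fun a => (t a).1.natAbs) := Poly.natAbs (Poly.fst ht)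
  refine (Poly.ite (Poly.decide_eq hp (Poly.snd ht)) (Poly.mul (Poly.const 3) (Poly.mul h1 h1))
    (Poly.const 0)).congr fun a => ?_
  unfold wt
  rw [sq]

theorem poly_copies {t : α → QT} {p : α → ℕ × ℕ} (ht : Poly t) (hp : Poly p) :
    Poly (fun a => copies (t a) (p a)) := by
  refine Poly.map (F := fun a _ => [((1 : ℤ), p a)]) (Poly.filter
    (p := fun a r => decide (wt (t a) (p a) ≤ r)) (Poly.const (List.range 192)) ?_) ?_
  · exact Poly.decide_le ((poly_wt ht hp).comp (Poly.fst Poly.id)) (Poly.snd Poly.id)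
  · exact Poly.cons (Poly.pair (Poly.const 1) (hp.comp (Poly.fst Poly.id))) (Poly.const [])

theorem poly_tneg {t : α → QT} (ht : Poly t) : Poly (fun a => tneg (t a)) :=
  Poly.pair (Poly.ineg (Poly.fst ht)) (Poly.snd ht)

theorem poly_cforms {n : α → ℕ} {g : α → QC} (hn : UPoly n) (hg : Poly g) :
    Poly (fun a => cforms (n a) (g a)) := by
  have g1 := Poly.fst hg
  have g2 := Poly.fst (Poly.snd hg)
  have g3 := Poly.snd (Poly.snd hg)
  have pr : ∀ {s t : α → QT}, Poly s → Poly t → Poly (fun a => [s a, t a]) := fun hs ht =>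
    Poly.cons hs (Poly.cons ht (Poly.const []))
  refine Poly.append (Poly.cons (pr g1 (poly_tneg g2)) (Poly.cons (pr g2 (poly_tneg g3))
    (Poly.cons (pr g1 (poly_tneg g3)) (Poly.const [])))) ?_
  refine Poly.flatMap (F := fun a t => (pairs (n a)).flatMap (fun p => copies t p))
    (Poly.cons g1 (Poly.cons g2 (Poly.cons g3 (Poly.const [])))) ?_
  refine Poly.flatMap (F := fun (q : α × QT) p => copies q.2 p)
    ((poly_pairs hn).comp (Poly.fst Poly.id)) ?_
  exact poly_copies (Poly.snd (Poly.fst Poly.id)) (Poly.snd Poly.id)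

theorem poly_forms {n : α → ℕ} {G : α → List QC} (hn : UPoly n) (hG : Poly G) :
    Poly (fun a => forms (n a) (G a)) := by
  refine Poly.flatMap (F := fun a g => (G a).flatMap (fun _ => cforms (n a) g)) hG ?_
  refine Poly.flatMap (F := fun (q : α × QC) _ => cforms (n q.1) q.2) (hG.comp (Poly.fst Poly.id))
    ?_
  exact (poly_cforms (hn.comp (Poly.fst Poly.id)) (Poly.snd Poly.id)).comp (Poly.fst Poly.id)

theorem poly_cf {f : α → List QT} {i j : α → ℕ} (hf : Poly f) (hi : Poly i) (hj : Poly j) :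
    Poly (fun a => cf (f a) (i a) (j a)) := by
  refine Poly.isum (Poly.map (F := fun a (t : QT) => (if t.2.1 = i a ∧ t.2.2 = j a then t.1
    else 0) + (if t.2.2 = i a ∧ t.2.1 = j a then t.1 else 0)) hf ?_)
  have a1 : Poly (fun p : α × QT => p.1) := Poly.fst Poly.id
  have t1 : Poly (fun p : α × QT => p.2.1) := Poly.fst (Poly.snd Poly.id)
  have t2 : Poly (fun p : α × QT => p.2.2.1) := Poly.fst (Poly.snd (Poly.snd Poly.id))
  have t3 : Poly (fun p : α × QT => p.2.2.2) := Poly.snd (Poly.snd (Poly.snd Poly.id))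
  exact Poly.iadd
    (Poly.ite (Poly.decide_and (Poly.decide_eq t2 (hi.comp a1)) (Poly.decide_eq t3 (hj.comp a1)))
      t1 (Poly.const 0))
    (Poly.ite (Poly.decide_and (Poly.decide_eq t3 (hi.comp a1)) (Poly.decide_eq t2 (hj.comp a1)))
      t1 (Poly.const 0))

theorem poly_intToRat {z : α → ℤ} (hz : Poly z) : Poly (fun a => ((z a : ℤ) : ℚ)) := by
  have h : Poly (fun a => (z a, (1 : ℕ))) := Poly.pair hz (Poly.const 1)
  have h2 : Poly (fun a => (((z a : ℤ) : ℚ).num, ((z a : ℤ) : ℚ).den)) := h.congr fun a => by simp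
  exact h2

theorem poly_tenL {d : α → ℕ} {L : α → List (List QT)} (hd : UPoly d) (hL : Poly L) :
    Poly (fun a => tenL (d a) (L a)) := by
  refine Poly.map (F := fun a i => (List.range (d a)).map (fun j => (List.range (d a)).map
    (fun k => ((ten (L a) i j k : ℤ) : ℚ)))) hd.range ?_
  refine Poly.map (F := fun (p : α × ℕ) j => (List.range (d p.1)).map
    (fun k => ((ten (L p.1) p.2 j k : ℤ) : ℚ))) (hd.range.comp (Poly.fst Poly.id)) ?_
  refine Poly.map (F := fun (p : (α × ℕ) × ℕ) k => ((ten (L p.1.1) p.1.2 p.2 k : ℤ) : ℚ))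
    (hd.range.comp (Poly.fst (Poly.fst Poly.id))) ?_
  have e1 : Poly (fun p : ((α × ℕ) × ℕ) × ℕ => p.1.1.1) :=
    Poly.fst (Poly.fst (Poly.fst Poly.id))
  have e2 : Poly (fun p : ((α × ℕ) × ℕ) × ℕ => p.1.1.2) :=
    Poly.snd (Poly.fst (Poly.fst Poly.id))
  have e3 : Poly (fun p : ((α × ℕ) × ℕ) × ℕ => p.1.2) := Poly.snd (Poly.fst Poly.id)
  have e4 : Poly (fun p : ((α × ℕ) × ℕ) × ℕ => p.2) := Poly.snd Poly.id
  exact poly_intToRat (poly_cf (Poly.getD (hL.comp e1) e4 (Poly.const [])) e2 e3)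

theorem poly_inst {S : α → List ER.Con} (hS : Poly S) : Poly (fun a => inst (S a)) := by
  have hT := poly_bsys hS
  have hG := poly_hsys hT
  have hF := poly_forms (upoly_hn hT) hG
  refine Poly.pair (poly_tenL (UPoly.add (upoly_hn hT) (UPoly.length hF)) hF) ?_
  exact poly_intToRat (Poly.natCast (Poly.mul (Poly.const 48) (Poly.length hG)))

end

/-- Tensor Singular Value is `∃ℝ`-hard. -/
theorem tsv_hard : ERHard (lang TensorSingularValue) :=
  ERHard.of_sys (poly_inst Poly.id) sat_iff_tsv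

end Pool.Agent.NPC.H78TSV
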